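import Pool.Agent.L0h29.AL.ArtDefs7
import Pool.Agent.L0h37.AL.SPA
import Pool.Agent.L0h81.AL.Fca

/-!
# Module GDX of project AL, part 5 (helper6): Garside data exist
-/

set_option autoImplicit false

namespace Pool.Agent.L0h6.AL

open Pool.Agent.K7.H20.AW Pool.Agent.K7.H87.FJ6 Pool.Agent.L0h29.AL

/-- an inclusion of a relation between positive words, with areas -/
theorem area_po {A B : Type} [Fintype A] [DecidableEq A] (hC : S_CHN.{0}) (hA : S_ARE.{0})
    (M : CoxeterMatrix B) (ι : A → B) (hι : Function.Injective ι) {l l' : List A}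
    (h : pm (pull M ι hι) l = pm (pull M ι hι) l') {L : ℕ} (hL : l.length ≤ L) :
    Area M (po (l.map ι) ++ inw (po (l'.map ι))) ((Fintype.card A + 1) ^ L * 2 * (L + 1)) := by
  have h1 := Pool.Agent.L0h37.AL.AG_pm hA hC h
  have h2 : FreeGroup.mk (po l ++ inw (po l')) =
      Pool.Agent.L0h37.AL.P l * (Pool.Agent.L0h37.AL.P l')⁻¹ := by
    rw [Pool.Agent.L0h37.AL.mk_append, Pool.Agent.L0h37.AL.mk_inw]
    rfl
  rw [← h2] at h1
  have h3 := Pool.Agent.L0h37.AL.AG_area hA h1
  have h4 := Pool.Agent.L0h81.AL.area_map M ι hι h3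
  have h5 : (po l ++ inw (po l')).map (Prod.map ι id) =
      po (l.map ι) ++ inw (po (l'.map ι)) := by
    rw [List.map_append, ← Pool.Agent.L0h81.AL.map_inw]
    unfold po
    rw [List.map_map, List.map_map, List.map_map, List.map_map]
    rfl
  rw [h5] at h4
  obtain ⟨c, c1, c2, c3⟩ := h4
  have hb : (Fintype.card A ^ l.length + 1) * (l.length + 1) ≤
      (Fintype.card A + 1) ^ L * 2 * (L + 1) := by
    refine Nat.mul_le_mul ?_ (by omega)
    have e1 : Fintype.card A ^ l.length ≤ (Fintype.card A + 1) ^ L :=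
      (Nat.pow_le_pow_left (by omega) _).trans (Nat.pow_le_pow_right (by omega) hL)
    have e2 : 1 ≤ (Fintype.card A + 1) ^ L := Nat.one_le_pow _ _ (by omega)
    omega
  exact ⟨c, c1.trans hb, fun p hp => (c2 p hp).trans hb, c3⟩

theorem area_mono {B : Type} {M : CoxeterMatrix B} {w : List (B × Bool)} {N N' : ℕ}
    (h : Area M w N) (hN : N ≤ N') : Area M w N' := by
  obtain ⟨c, c1, c2, c3⟩ := h
  exact ⟨c, c1.trans hN, fun p hp => (c2 p hp).trans hN, c3⟩

/-- the length of equal positive words -/
theorem len_eq {A : Type} [Fintype A] [DecidableEq A] (hC : S_CHN.{0}) (M : CoxeterMatrix A)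
    {l l' : List A} (h : pm M l = pm M l') : l'.length = l.length := by
  obtain ⟨ch, c1, c2, c3, c4, c5⟩ := hC A M _ _ h
  exact c5 _ (List.mem_of_getLast? c2)

theorem gd_mono {B : Type} {M : CoxeterMatrix B} {X : Finset B} {D D' : ℕ} (h : GD M X D)
    (hD : D ≤ D') : GD M X D' := by
  obtain ⟨d, h1, h2, h3⟩ := h
  refine ⟨d, h1.trans hD, h2, fun b hb => ?_⟩
  obtain ⟨b', hb', v, v1, v2, v3, v4, v5⟩ := h3 b hb
  exact ⟨b', hb', v, v1.trans hD, v2, area_mono v3 hD, area_mono v4 hD, area_mono v5 hD⟩

theorem gdx (hD : S_DEL.{0}) (hC : S_CHN.{0}) (hA : S_ARE.{0}) : S_GDX := by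
  classical
  intro n M hM
  have key : ∀ X : Finset (Fin n), ∃ D, Sm M X → GD M X D := by
    intro X
    by_cases hX : Sm M X
    · obtain ⟨d, σ, v, hσ, h1, h2⟩ := hD {i // i ∈ X}
        (pull M (Subtype.val : {i // i ∈ X} → Fin n) Subtype.val_injective) (hM X hX)
      refine ⟨d.length + (Fintype.card {i // i ∈ X} + 1) ^ (d.length + 1) * 2 *
        (d.length + 1 + 1), fun _ => ⟨d.map Subtype.val, ?_, ?_, ?_⟩⟩
      · rw [List.length_map]
        exact Nat.le_add_right _ _
      · intro a ha
        rw [List.mem_map] at ha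
        obtain ⟨x, _, rfl⟩ := ha
        exact x.2
      · intro b hb
        have k1 := area_po hC hA M Subtype.val Subtype.val_injective (h1 ⟨b, hb⟩)
          (L := d.length + 1) (by rw [List.length_cons])
        have k2 := area_po hC hA M Subtype.val Subtype.val_injective (h1 (σ ⟨b, hb⟩))
          (L := d.length + 1) (by rw [List.length_cons])
        have k3 := area_po hC hA M Subtype.val Subtype.val_injective (h2 ⟨b, hb⟩)
          (L := d.length + 1) (by omega)
        have k4 := len_eq hC _ (h2 ⟨b, hb⟩)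
        rw [hσ] at k2
        rw [List.length_cons] at k4
        refine ⟨(σ ⟨b, hb⟩).1, (σ ⟨b, hb⟩).2, (v ⟨b, hb⟩).map Subtype.val, ?_, ?_, ?_, ?_, ?_⟩
        · rw [List.length_map]
          omega
        · intro a ha
          rw [List.mem_map] at ha
          obtain ⟨x, _, rfl⟩ := ha
          exact x.2
        · rw [List.map_cons, List.map_append, List.map_singleton] at k1
          exact area_mono k1 (Nat.le_add_left _ _)
        · rw [List.map_cons, List.map_append, List.map_singleton] at k2
          exact area_mono k2 (Nat.le_add_left _ _)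
        · rw [List.map_cons] at k3
          exact area_mono k3 (Nat.le_add_left _ _)
    · exact ⟨0, fun h => absurd h hX⟩
  choose D hD' using key
  refine ⟨Finset.univ.sup D, fun X hX => gd_mono (hD' X hX) (Finset.le_sup (Finset.mem_univ X))⟩

end Pool.Agent.L0h6.AL
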