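import Pool.Agent.L0h29.AL.ArtDefs7
import Pool.Agent.L0h37.AL.SPA

/-!
# Module SPU of project AL, part 5 (helper6): the area in an Artin group of spherical type, with an
explicit constant

The proof is the one of `Pool/Agent/L0h37/AL/SPA.lean`.
-/

set_option autoImplicit false

namespace Pool.Agent.L0h6.AL

open Pool.Agent.L0h29.AL Pool.Agent.K7.H20.AW Pool.Agent.K7.H87.FJ6 Pool.Agent.L0h37.AL

universe u

/-- the numerical estimate -/
theorem spu_bound (q D n : ℕ) :
    n * (((q ^ D + 1) * (D + 1) + (n + 1) * D + 1) +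
      D * ((n + 1) * ((q ^ (D + 1) + 1) * (D + 1 + 1) + (n + 1) * D) + 1) +
      (n + 1) * ((q ^ (D + 1) + 1) * (D + 1 + 1) + (n + 1) * D) + D + 1) +
      ((q ^ (n * D) + 1) * (n * D + 1)) + n * D ≤
    kk (q + D) ^ (kk (q + D) * (n + 1)) := by
  obtain ⟨X, hX⟩ : ∃ X : ℕ, X = 2 * (q + D) + 10 := ⟨_, rfl⟩
  have hX10 : 10 ≤ X := by omega
  have hqX : q + 1 ≤ X := by omega
  have hDX : D + 5 ≤ X := by omega
  have hpow : ∀ m : ℕ, q ^ m + 1 ≤ X ^ m + 1 := fun m =>
    Nat.add_le_add_right (Nat.pow_le_pow_left (by omega) m) 1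
  have hX1 : ∀ m : ℕ, X ^ m + 1 ≤ X ^ (m + 1) := by
    intro m
    have h1 : 1 ≤ X ^ m := Nat.one_le_pow _ _ (by omega)
    rw [pow_succ]
    nlinarith
  have hq1 : ∀ m : ℕ, q ^ m + 1 ≤ X ^ (m + 1) := fun m => (hpow m).trans (hX1 m)
  have hN : n + 1 ≤ X ^ n := by
    calc n + 1 ≤ 2 ^ n := Nat.lt_two_pow_self
      _ ≤ X ^ n := Nat.pow_le_pow_left (by omega) n
  -- the terms
  have t0 : (n + 1) * D ≤ X ^ (n + 1) := by
    rw [pow_succ]
    exact Nat.mul_le_mul hN (by omega)
  have t1 : (q ^ (D + 1) + 1) * (D + 1 + 1) ≤ X ^ (D + 3) := by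
    calc (q ^ (D + 1) + 1) * (D + 1 + 1) ≤ X ^ (D + 1 + 1) * X :=
          Nat.mul_le_mul (hq1 _) (by omega)
      _ = X ^ (D + 3) := by rw [← pow_succ]
  have t2 : (q ^ D + 1) * (D + 1) ≤ X ^ (D + 3) := by
    calc (q ^ D + 1) * (D + 1) ≤ X ^ (D + 1) * X := Nat.mul_le_mul (hq1 _) (by omega)
      _ = X ^ (D + 2) := by rw [← pow_succ]
      _ ≤ X ^ (D + 3) := Nat.pow_le_pow_right (by omega) (by omega)
  have t3 : (n + 1) * ((q ^ (D + 1) + 1) * (D + 1 + 1) + (n + 1) * D) ≤ X ^ (2 * n + D + 4) := by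
    have h1 : X ^ (D + 3) + X ^ (n + 1) ≤ X ^ (n + D + 4) := by
      have e1 : X ^ (D + 3) ≤ X ^ (n + D + 3) := Nat.pow_le_pow_right (by omega) (by omega)
      have e2 : X ^ (n + 1) ≤ X ^ (n + D + 3) := Nat.pow_le_pow_right (by omega) (by omega)
      have e3 : X ^ (n + D + 4) = X ^ (n + D + 3) * X := pow_succ _ _
      have e4 : X ^ (n + D + 3) * 2 ≤ X ^ (n + D + 3) * X := Nat.mul_le_mul_left _ (by omega)
      rw [e3]
      omega
    calc (n + 1) * ((q ^ (D + 1) + 1) * (D + 1 + 1) + (n + 1) * D)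
        ≤ X ^ n * (X ^ (D + 3) + X ^ (n + 1)) := Nat.mul_le_mul hN (Nat.add_le_add t1 t0)
      _ ≤ X ^ n * X ^ (n + D + 4) := Nat.mul_le_mul_left _ h1
      _ = X ^ (2 * n + D + 4) := by rw [← pow_add]; congr 1; ring
  obtain ⟨A, hA⟩ : ∃ A : ℕ, A = X ^ (2 * n + D + 4) := ⟨_, rfl⟩
  have hA1 : 1 ≤ A := by rw [hA]; exact Nat.one_le_pow _ _ (by omega)
  have t0' : (n + 1) * D ≤ A := by
    rw [hA]; exact t0.trans (Nat.pow_le_pow_right (by omega) (by omega))
  have t2' : (q ^ D + 1) * (D + 1) ≤ A := by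
    rw [hA]; exact t2.trans (Nat.pow_le_pow_right (by omega) (by omega))
  rw [← hA] at t3
  have hDA : D ≤ A := by
    have : D ≤ (n + 1) * D := Nat.le_mul_of_pos_left _ (by omega)
    omega
  have hS : ((q ^ D + 1) * (D + 1) + (n + 1) * D + 1) +
      D * ((n + 1) * ((q ^ (D + 1) + 1) * (D + 1 + 1) + (n + 1) * D) + 1) +
      (n + 1) * ((q ^ (D + 1) + 1) * (D + 1 + 1) + (n + 1) * D) + D + 1 ≤ A * X ^ 2 := by
    have h1 : D * ((n + 1) * ((q ^ (D + 1) + 1) * (D + 1 + 1) + (n + 1) * D) + 1) ≤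
        X * (A + A) := Nat.mul_le_mul (by omega) (by omega)
    have h2 : X * (A + A) + 6 * A ≤ A * X ^ 2 := by
      have : A * X ^ 2 = A * (X * X) := by ring
      rw [this]
      have h3 : 2 * X + 6 ≤ X * X := by nlinarith
      calc X * (A + A) + 6 * A = A * (2 * X + 6) := by ring
        _ ≤ A * (X * X) := Nat.mul_le_mul_left _ h3
    omega
  have u1 : n * (((q ^ D + 1) * (D + 1) + (n + 1) * D + 1) +
      D * ((n + 1) * ((q ^ (D + 1) + 1) * (D + 1 + 1) + (n + 1) * D) + 1) +
      (n + 1) * ((q ^ (D + 1) + 1) * (D + 1 + 1) + (n + 1) * D) + D + 1) ≤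
      X ^ (n * D + 3 * n + D + 6) := by
    calc _ ≤ X ^ n * (A * X ^ 2) := Nat.mul_le_mul (by omega) hS
      _ = X ^ (3 * n + D + 6) := by rw [hA, ← pow_add, ← pow_add]; congr 1; ring
      _ ≤ _ := Nat.pow_le_pow_right (by omega) (by omega)
  have u2 : (q ^ (n * D) + 1) * (n * D + 1) ≤ X ^ (n * D + 3 * n + D + 6) := by
    have h1 : n * D + 1 ≤ X ^ (n + 1) := by
      have : n * D + 1 ≤ (n + 1) * X := by nlinarith
      rw [pow_succ]
      exact this.trans (Nat.mul_le_mul_right _ hN)
    calc (q ^ (n * D) + 1) * (n * D + 1) ≤ X ^ (n * D + 1) * X ^ (n + 1) :=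
          Nat.mul_le_mul (hq1 _) h1
      _ = X ^ (n * D + n + 2) := by rw [← pow_add]; congr 1; ring
      _ ≤ _ := Nat.pow_le_pow_right (by omega) (by omega)
  have u3 : n * D ≤ X ^ (n * D + 3 * n + D + 6) := by
    have h1 : n * D ≤ (n + 1) * D := Nat.mul_le_mul_right _ (by omega)
    exact (h1.trans t0).trans (Nat.pow_le_pow_right (by omega) (by omega))
  have u4 : X ^ (n * D + 3 * n + D + 7) = X ^ (n * D + 3 * n + D + 6) * X := pow_succ _ _
  have u5 : X ^ (n * D + 3 * n + D + 6) * 3 ≤ X ^ (n * D + 3 * n + D + 6) * X :=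
    Nat.mul_le_mul_left _ (by omega)
  have hkk : kk (q + D) = X ^ X := by unfold kk; rw [hX]
  have u6 : X ^ (n * D + 3 * n + D + 7) ≤ kk (q + D) ^ (kk (q + D) * (n + 1)) := by
    rw [hkk, ← pow_mul]
    apply Nat.pow_le_pow_right (by omega)
    have h1 : X ≤ X ^ X := Nat.le_self_pow (by omega) X
    calc n * D + 3 * n + D + 7 ≤ (D + 7) * (n + 1) := by nlinarith
      _ ≤ (X * X) * (n + 1) := Nat.mul_le_mul_right _ (by nlinarith)
      _ ≤ (X * X ^ X) * (n + 1) := Nat.mul_le_mul_right _ (Nat.mul_le_mul_left _ h1)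
      _ = X * (X ^ X * (n + 1)) := by ring
  omega

theorem spu (hA : S_ARE.{u}) (hC : S_CHN.{u}) (hE : S_EMB.{u}) : S_SPU.{u} := by
  intro B _ _ M hfin d σ v hσ h1 h2
  -- constants
  set q := Fintype.card B with hq
  set e := (q ^ (d.length + 1) + 1) * (d.length + 1 + 1) with he
  set e' := (q ^ d.length + 1) * (d.length + 1) with he'
  have hcom : ∀ b, AG M (P d * P [b] * (P d)⁻¹ * (P [σ b])⁻¹) e := by
    intro b
    have h3 : pm M (d ++ [b]) = pm M (σ b :: d) := by
      rw [h1 (σ b), hσ]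
    have h4 := AG_pm hA hC h3
    rw [P_append, P_cons (σ b) d] at h4
    have h5 : P d * P [b] * (P [σ b] * P d)⁻¹ = P d * P [b] * (P d)⁻¹ * (P [σ b])⁻¹ := by group
    rw [h5] at h4
    simpa only [List.length_append, List.length_singleton] using h4
  have hvb : ∀ b, AG M (P d * (P [b] * P (v b))⁻¹) e' := by
    intro b
    have h4 := AG_pm hA hC (h2 b)
    rwa [P_cons b (v b)] at h4
  obtain ⟨vm, hvm, hvmd⟩ : ∃ vm : ℕ, (∀ b, (v b).length ≤ vm) ∧ vm = d.length := by
    refine ⟨d.length, fun b => ?_, rfl⟩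
    obtain ⟨ch, c1, c2, c3, c4, c5⟩ := hC B M _ _ (h2 b)
    have c6 := c5 _ (List.mem_of_getLast? c2)
    rw [List.length_cons] at c6
    omega
  -- the cost of a step
  set S : ℕ → ℕ := fun N => (e' + (N + 1) * d.length + 1) + vm * ((N + 1) * (e + (N + 1) * d.length) + 1) +
    (N + 1) * (e + (N + 1) * d.length) + vm + 1 with hS
  have hEk : ∀ (k N : ℕ), k ≤ N + 1 → ∀ b,
      AG M (P d ^ k * P [b] * (P d ^ k)⁻¹ * (P [σ^[k] b])⁻¹)
        ((N + 1) * (e + (N + 1) * d.length)) := fun k N hk b =>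
    AG_mono hA (AG_E hA d σ e hcom k b)
      (Nat.mul_le_mul hk (Nat.add_le_add_left (Nat.mul_le_mul_right _ hk) _))
  have hmain : ∀ (N : ℕ) (w : List (B × Bool)), w.length ≤ N → ∃ (p : List B) (k : ℕ),
      k ≤ w.length ∧ AG M (P d ^ k * FreeGroup.mk w * (P p)⁻¹) (w.length * S N) := by
    intro N w
    induction w with
    | nil =>
      intro _
      refine ⟨[], 0, le_rfl, ?_⟩
      have : P d ^ 0 * FreeGroup.mk ([] : List (B × Bool)) * (P ([] : List B))⁻¹ = 1 := by
        rw [P_nil, pow_zero, inv_one, mul_one, one_mul]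
        rfl
      rw [this]
      exact AG_mono hA AG_one (Nat.zero_le _)
    | cons a w ih =>
      intro hN
      rw [List.length_cons] at hN
      obtain ⟨p, k, hk, hp⟩ := ih (by omega)
      obtain ⟨b, s⟩ := a
      have hcons : FreeGroup.mk ((b, s) :: w) = FreeGroup.mk [(b, s)] * FreeGroup.mk w :=
        mk_append [(b, s)] w
      cases s
      · -- a negative letter
        refine ⟨(v b).map (σ^[k + 1]) ++ p, k + 1, by rw [List.length_cons]; omega, ?_⟩
        have hb : FreeGroup.mk [(b, false)] = (P [b])⁻¹ := by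
          rw [Pool.Agent.L0h37.AL.P, FreeGroup.inv_mk]
          rfl
        -- b⁻¹ d V⁻¹
        have h3 : AG M ((P [b])⁻¹ * P d * (P (v b))⁻¹) (e' + 1) := by
          have h4 := AG_conj hA [(b, false)] (hvb b)
          rw [hb] at h4
          have h5 : (P [b])⁻¹ * (P d * (P [b] * P (v b))⁻¹) * ((P [b])⁻¹)⁻¹ =
              (P [b])⁻¹ * P d * (P (v b))⁻¹ := by group
          rw [h5] at h4
          exact h4
        have h4 := AG_conjP hA (List.replicate (k + 1) d).flatten h3
        rw [P_rep, rep_len] at h4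
        have h5 := AG_V hA (P d ^ (k + 1)) (σ^[k + 1]) _ (hEk (k + 1) N (by omega)) (v b)
        have h6 := AG_conjP hA ((v b).map (σ^[k + 1])) hp
        have h7 := AG_mul hA (AG_mul hA h4 h5) h6
        have h8 : P d ^ (k + 1) * ((P [b])⁻¹ * P d * (P (v b))⁻¹) * (P d ^ (k + 1))⁻¹ *
            (P d ^ (k + 1) * P (v b) * (P d ^ (k + 1))⁻¹ * (P ((v b).map (σ^[k + 1])))⁻¹) *
            (P ((v b).map (σ^[k + 1])) * (P d ^ k * FreeGroup.mk w * (P p)⁻¹) *
              (P ((v b).map (σ^[k + 1])))⁻¹) =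
            P d ^ (k + 1) * FreeGroup.mk ((b, false) :: w) *
              (P ((v b).map (σ^[k + 1]) ++ p))⁻¹ := by
          rw [hcons, hb, P_append, pow_succ]
          generalize P d ^ k = X
          group
        rw [h8] at h7
        refine AG_mono hA h7 ?_
        have h12 : (w.length + 1) * S N = w.length * S N + S N := by ring
        have hSN : S N = (e' + (N + 1) * d.length + 1) +
          vm * ((N + 1) * (e + (N + 1) * d.length) + 1) +
          (N + 1) * (e + (N + 1) * d.length) + vm + 1 := rfl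
        rw [List.length_cons, List.length_map, h12]
        have h9 : (k + 1) * d.length ≤ (N + 1) * d.length := Nat.mul_le_mul_right _ (by omega)
        have h10 : (v b).length * ((N + 1) * (e + (N + 1) * d.length) + 1) ≤
            vm * ((N + 1) * (e + (N + 1) * d.length) + 1) := Nat.mul_le_mul_right _ (hvm b)
        have h11 := hvm b
        omega
      · -- a positive letter
        refine ⟨σ^[k] b :: p, k, by rw [List.length_cons]; omega, ?_⟩
        have hb : FreeGroup.mk [(b, true)] = P [b] := rfl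
        have h3 := hEk k N (by omega) b
        have h4 := AG_conjP hA [σ^[k] b] hp
        have h5 := AG_mul hA h3 h4
        have h6 : P d ^ k * P [b] * (P d ^ k)⁻¹ * (P [σ^[k] b])⁻¹ *
            (P [σ^[k] b] * (P d ^ k * FreeGroup.mk w * (P p)⁻¹) * (P [σ^[k] b])⁻¹) =
            P d ^ k * FreeGroup.mk ((b, true) :: w) * (P (σ^[k] b :: p))⁻¹ := by
          rw [hcons, hb, P_cons (σ^[k] b) p]
          generalize P d ^ k = X
          group
        rw [h6] at h5
        refine AG_mono hA h5 ?_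
        have h12 : (w.length + 1) * S N = w.length * S N + S N := by ring
        have hSN : S N = (e' + (N + 1) * d.length + 1) +
          vm * ((N + 1) * (e + (N + 1) * d.length) + 1) +
          (N + 1) * (e + (N + 1) * d.length) + vm + 1 := rfl
        simp only [List.length_cons, List.length_nil]
        rw [h12]
        omega
  -- the last step
  set T : ℕ → ℕ := fun n => n * S n + ((q ^ (n * d.length) + 1) * (n * d.length + 1)) +
    n * d.length with hT
  have hK : ∀ n, T n ≤ kk (q + d.length) ^ (kk (q + d.length) * (n + 1)) := by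
    intro n
    have h := spu_bound q d.length n
    simp only [hT, hS, he, he', hvmd]
    exact h
  intro w hw
  obtain ⟨p, k, hk, hp⟩ := hmain w.length w le_rfl
  have hlval : lval M w = (lval M ([] : List (B × Bool))) := by rw [hw]; rfl
  -- the positive words are equal in the Artin group
  have hpos : ∀ l : List B, lval M (l.map fun x => (x, true)) = (l.map (g M)).prod := by
    intro l
    unfold lval
    rw [List.map_map]
    rfl
  have hla : ∀ w w' : List (B × Bool), lval M (w ++ w') = lval M w * lval M w' := by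
    intro w w'
    unfold lval
    rw [List.map_append, List.prod_append]
  have heq : pm M (List.replicate k d).flatten = pm M p := by
    apply hE B M hfin
    have h3 : FreeGroup.mk (((List.replicate k d).flatten.map fun x => (x, true)) ++ w ++
        inw (p.map fun x => (x, true))) = P d ^ k * FreeGroup.mk w * (P p)⁻¹ := by
      rw [mk_append, mk_append, mk_inw, ← P_rep]
      rfl
    have h4 := AG_mulE hA _ hp h3.symm
    have h5 : lval M ((((List.replicate k d).flatten.map fun x => (x, true)) ++ w ++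
        inw (p.map fun x => (x, true))) ++ (p.map fun x => (x, true))) =
        lval M (p.map fun x => (x, true)) := by rw [hla, h4, one_mul]
    have h6 : ∀ w : List (B × Bool), lval M (inw w) * lval M w = 1 := by
      intro w
      have h7 : Area M (inw w ++ w) 0 := by
        refine ⟨[], by simp, by simp, ?_⟩
        rw [mk_append, mk_inw, inv_mul_cancel]
        rfl
      rw [← hla]
      exact (hA B M).1 _ 0 h7
    rw [hla, hla, hla, mul_assoc, h6, mul_one, hw, mul_one, hpos, hpos] at h5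
    exact h5
  have h3 := AG_pm hA hC heq
  rw [rep_len, P_rep, ← hq] at h3
  have h4 := AG_mul hA hp (AG_inv hA h3)
  have h5 := AG_conj hA (inw ((List.replicate k d).flatten.map fun x => (x, true))) h4
  rw [mk_inw] at h5
  have h6 : FreeGroup.mk ((List.replicate k d).flatten.map fun x => (x, true)) = P d ^ k :=
    P_rep d k
  have h7 : (P d ^ k)⁻¹ * (P d ^ k * FreeGroup.mk w * (P p)⁻¹ * (P d ^ k * (P p)⁻¹)⁻¹) *
      ((P d ^ k)⁻¹)⁻¹ = FreeGroup.mk w := by
    generalize P d ^ k = X
    group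
  rw [h6, h7] at h5
  have h8 : (inw ((List.replicate k d).flatten.map fun x => (x, true))).length = k * d.length := by
    simp [inw]
  rw [h8] at h5
  have h9 := AG_mono hA h5 (N' := T w.length) (by
    simp only [hT]
    have h10 : k * d.length ≤ w.length * d.length := Nat.mul_le_mul_right _ hk
    have h11 : (q ^ (k * d.length) + 1) * (k * d.length + 1) ≤
        (q ^ (w.length * d.length) + 1) * (w.length * d.length + 1) := by
      apply Nat.mul_le_mul _ (by omega)
      rcases Nat.eq_zero_or_pos q with hq0 | hq0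
      · -- no generators
        have : d = [] := by
          rw [hq, Fintype.card_eq_zero_iff] at hq0
          rcases d with _ | ⟨x, _⟩
          · rfl
          · exact (hq0.false x).elim
        rw [this]
        simp
      · exact Nat.add_le_add_right (Nat.pow_le_pow_right hq0 h10) 1
    omega)
  exact (hA B M).2.1 w _ _ (hK w.length) (AG_area hA h9)

end Pool.Agent.L0h6.AL
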