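import Pool.Agent.L0h29.AL.ArtDefs7
import Pool.Agent.L0h68.AL.Cpt

/-!
# Module TTC of project AL, part 5 (helper6): the total bound is computable
-/

set_option autoImplicit false

namespace Pool.Agent.L0h6.AL

open Pool.Agent.K7.H20.AW Pool.Agent.L0h29.AL Pool.Agent.L0h68.AL

theorem pr_kk : Primrec kk := by
  have h1 : Primrec fun N : ℕ => 2 * N + 10 :=
    Primrec.nat_add.comp (Primrec.nat_mul.comp (Primrec.const 2) Primrec.id) (Primrec.const 10)
  exact pr_pow.comp h1 h1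

/-- TTC -/
theorem ttc : S_TTC := by
  have hp : Primrec ps := cps
  have hps : Primrec fun x : ℕ × ℕ => ps x.2 := hp.comp Primrec.snd
  have hn : Primrec fun x : ℕ × ℕ => n1 x.2 := pr_n1.comp Primrec.snd
  have hg : Primrec fun x : ℕ × ℕ => ga (n1 x.2) (n1 x.2) := pr_ga.comp hn hn
  have h1 : Primrec fun x : ℕ × ℕ => ga (n1 x.2) (n1 x.2) + 2 :=
    Primrec.nat_add.comp hg (Primrec.const 2)
  have hk : Primrec fun x : ℕ × ℕ => kk (x.2 + x.1) :=
    pr_kk.comp (Primrec.nat_add.comp Primrec.snd Primrec.fst)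
  have h2 : Primrec fun x : ℕ × ℕ => kk (x.2 + x.1) ^ (kk (x.2 + x.1) *
      (ga (n1 x.2) (n1 x.2) + 2)) :=
    pr_pow.comp hk (Primrec.nat_mul.comp hk h1)
  have h3 : Primrec fun x : ℕ × ℕ => kk (x.2 + x.1) ^ (kk (x.2 + x.1) *
      (ga (n1 x.2) (n1 x.2) + 2)) + ga (n1 x.2) (n1 x.2) + 2 :=
    Primrec.nat_add.comp (Primrec.nat_add.comp h2 hg) (Primrec.const 2)
  exact Primrec.nat_add.comp (Primrec.nat_add.comp (Primrec.nat_mul.comp h1 h3) hps) Primrec.snd

end Pool.Agent.L0h6.AL
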